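import Pool.Agent.Helper74.FP.Goals

/-!
# Project FP, packet F4: branch sets on reduced words
-/

set_option autoImplicit false

namespace Pool.Agent.Helper15.FP

open Pool.Agent.Helper52.Wq2 Pool.Agent.Helper61.NW Pool.Agent.Helper74.FP Monoid

universe u

/-- A union of connected sets with a common point is connected. -/
theorem conn_star {V : Type*} {G : SimpleGraph V} {s : Set V} {r : V} (hr : r ∈ s)
    (h : ∀ x ∈ s, ∃ t ⊆ s, Conn G t ∧ r ∈ t ∧ x ∈ t) : Conn G s := by
  have sub : ∀ A : Set V, (∀ a ∈ A, ∀ b ∈ s, G.Adj a b → b ∈ A) → ∀ t ⊆ s, Conn G t →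
      (A ∩ t).Nonempty → t ⊆ A := by
    intro A hcl t hts ht hn x hx
    exact (ht.2 (A ∩ t) Set.inter_subset_right hn
      (fun a ha b hb hab => ⟨hcl a ha.1 b (hts hb) hab, hb⟩) hx).1
  refine ⟨⟨r, hr⟩, ?_⟩
  intro A hA hne hcl
  obtain ⟨x, hx⟩ := hne
  obtain ⟨t, hts, ht, hrt, hxt⟩ := h x (hA hx)
  have hrA : r ∈ A := sub A hcl t hts ht ⟨x, hx, hxt⟩ hrt
  intro y hy
  obtain ⟨t', hts', ht', hrt', hyt'⟩ := h y hy
  exact sub A hcl t' hts' ht' ⟨r, hrA, hrt'⟩ hyt'

section

variable {ι : Type} {A B : ι → Type u} [∀ i, Group (A i)] [∀ i, Group (B i)]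

/-- Apply `r` to the letters. -/
def fw (r : ∀ i, A i → B i) (hr : ∀ i a, a ≠ 1 → r i a ≠ 1) (w : CoprodI.Word A) :
    CoprodI.Word B where
  toList := w.toList.map fun l => ⟨l.1, r l.1 l.2⟩
  ne_one := by
    intro l hl
    obtain ⟨l', hl', rfl⟩ := List.mem_map.1 hl
    exact hr _ _ (w.ne_one l' hl')
  chain_ne := by
    rw [List.isChain_map]
    exact w.chain_ne

variable (r : ∀ i, A i → B i) (hr : ∀ i a, a ≠ 1 → r i a ≠ 1)

theorem fw_fstIdx (w : CoprodI.Word A) : (fw r hr w).fstIdx = w.fstIdx := by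
  unfold CoprodI.Word.fstIdx fw
  simp only
  cases w.toList with
  | nil => rfl
  | cons x l => rfl

theorem fw_inj (hinj : ∀ i, Function.Injective (r i)) : Function.Injective (fw r hr) := by
  intro w v h
  have h1 := congrArg CoprodI.Word.toList h
  have h2 : Function.Injective (fun l : (Σ i, A i) => (⟨l.1, r l.1 l.2⟩ : Σ i, B i)) := by
    rintro ⟨i, a⟩ ⟨j, b⟩ hab
    rw [Sigma.mk.injEq] at hab
    obtain ⟨h3, h4⟩ := hab
    simp only at h3
    subst h3
    have h5 : r i a = r i b := eq_of_heq h4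
    rw [hinj i h5]
  exact CoprodI.Word.ext (List.map_injective_iff.2 h2 h1)

/-- The image in the free product. -/
def FF (w : CoprodI.Word A) : CoprodI B := (fw r hr w).prod

theorem prod_inj : Function.Injective (CoprodI.Word.prod : CoprodI.Word B → CoprodI B) := by
  classical
  exact (CoprodI.Word.equiv (M := B)).symm.injective

theorem FF_rcons [∀ i, DecidableEq (A i)] (h1 : ∀ i, r i 1 = 1) {i : ι}
    (p : CoprodI.Word.Pair A i) :
    FF r hr (CoprodI.Word.rcons p) = CoprodI.of (r i p.head) * FF r hr p.tail := by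
  by_cases h : p.head = 1
  · rw [CoprodI.Word.rcons, dif_pos h, h, h1, map_one, one_mul]
  · rw [CoprodI.Word.rcons, dif_neg h]
    simp [FF, fw, CoprodI.Word.prod, CoprodI.Word.cons]

theorem same_index {i : ι} {b d : B i} {w₁ w₂ : CoprodI.Word B} (h₁ : w₁.fstIdx ≠ some i)
    (h₂ : w₂.fstIdx ≠ some i) (h : CoprodI.of b * w₁.prod = CoprodI.of d * w₂.prod) :
    b = d ∧ w₁ = w₂ := by
  classical
  have h3 : CoprodI.Word.rcons (⟨b, w₁, h₁⟩ : CoprodI.Word.Pair B i) =
      CoprodI.Word.rcons (⟨d, w₂, h₂⟩ : CoprodI.Word.Pair B i) := by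
    apply prod_inj
    rw [CoprodI.Word.prod_rcons, CoprodI.Word.prod_rcons]
    exact h
  have h4 := CoprodI.Word.rcons_inj h3
  rw [CoprodI.Word.Pair.mk.injEq] at h4
  exact h4

theorem diff_index {i j : ι} (hij : i ≠ j) {b : B i} {d : B j} {w₁ w₂ : CoprodI.Word B}
    (h₁ : w₁.fstIdx ≠ some i) (h₂ : w₂.fstIdx ≠ some j)
    (h : CoprodI.of b * w₁.prod = CoprodI.of d * w₂.prod) : b = 1 ∨ d = 1 := by
  classical
  by_contra hc
  rw [not_or] at hc
  obtain ⟨hb, hd⟩ := hc
  have h3 : CoprodI.Word.cons b w₁ h₁ hb = CoprodI.Word.cons d w₂ h₂ hd := by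
    apply prod_inj
    rw [CoprodI.Word.prod_cons, CoprodI.Word.prod_cons]
    exact h
  have h4 := congrArg CoprodI.Word.fstIdx h3
  rw [CoprodI.Word.fstIdx_cons, CoprodI.Word.fstIdx_cons] at h4
  exact hij (Option.some.inj h4)

end

theorem cayL_adj_right {ι : Type} {B : ι → Type u} [∀ i, Group (B i)] {T : ∀ i, Set (B i)}
    {i : ι} {a b : B i} (h : (cayL (T i)).Adj a b) (y : CoprodI B) :
    (cayL (US T)).Adj (CoprodI.of a * y) (CoprodI.of b * y) := by
  rw [cayL, SimpleGraph.fromRel_adj] at h ⊢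
  obtain ⟨hne, h⟩ := h
  refine ⟨fun h' => hne (CoprodI.of_injective i (mul_right_cancel h')), ?_⟩
  have e : ∀ a b : B i, CoprodI.of b * y * (CoprodI.of a * y)⁻¹ = CoprodI.of (b * a⁻¹) := by
    intro a b
    rw [map_mul, map_inv]
    group
  rcases h with h | h
  · exact Or.inl ⟨i, _, h, e a b⟩
  · exact Or.inr ⟨i, _, h, e b a⟩

theorem f4 : F4Stmt.{u} := by
  classical
  intro ι A B _ _ S T V hS hT hV h1
  -- representatives
  have hne : ∀ i a, (V i a).Nonempty := fun i a => ((hV i).1 a).1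
  have dis : ∀ i a b x, x ∈ V i a → x ∈ V i b → a = b := fun i a b x => (hV i).2.1 a b x
  let r : ∀ i, A i → B i := fun i a => if a = 1 then 1 else (hne i a).some
  have hrV : ∀ i a, r i a ∈ V i a := by
    intro i a
    by_cases ha : a = 1
    · have e : r i a = 1 := if_pos ha
      rw [e, ha]
      exact h1 i
    · have e : r i a = (hne i a).some := if_neg ha
      rw [e]
      exact (hne i a).some_mem
  have hr1 : ∀ i, r i 1 = 1 := fun i => if_pos rfl
  have hr : ∀ i a, a ≠ 1 → r i a ≠ 1 := by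
    intro i a ha h
    apply ha
    refine dis i a 1 1 ?_ (h1 i)
    rw [← h]
    exact hrV i a
  have hrinj : ∀ i, Function.Injective (r i) := by
    intro i a b h
    refine dis i a b (r i a) (hrV i a) ?_
    rw [h]
    exact hrV i b
  let F : CoprodI.Word A → CoprodI B := FF r hr
  -- same index
  have L1 : ∀ (i : ι) (p q : CoprodI.Word.Pair A i) (b d : B i), b ∈ V i p.head →
      d ∈ V i q.head → CoprodI.of b * F p.tail = CoprodI.of d * F q.tail → p = q := by
    intro i p q b d hb hd h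
    obtain ⟨e1, e2⟩ := same_index (by rw [fw_fstIdx]; exact p.fstIdx_ne)
      (by rw [fw_fstIdx]; exact q.fstIdx_ne) h
    have e3 := fw_inj r hr hrinj e2
    have e4 : p.head = q.head := dis i _ _ b hb (by rw [e1]; exact hd)
    rcases p with ⟨p1, p2, p3⟩
    rcases q with ⟨q1, q2, q3⟩
    simp only at e3 e4
    subst e3 e4
    rfl
  have pair : ∀ (i : ι) (w : CoprodI.Word A),
      CoprodI.Word.rcons (CoprodI.Word.equivPair i w) = w := by
    intro i w
    rw [← CoprodI.Word.equivPair_symm, Equiv.symm_apply_apply]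
  have Fpair : ∀ (i : ι) (w : CoprodI.Word A), F w =
      CoprodI.of (r i (CoprodI.Word.equivPair i w).head) *
        F (CoprodI.Word.equivPair i w).tail := by
    intro i w
    have := FF_rcons r hr hr1 (CoprodI.Word.equivPair i w)
    rwa [pair] at this
  have L2 : ∀ (w : CoprodI.Word A) (j : ι) (q : CoprodI.Word.Pair A j) (d : B j),
      d ∈ V j q.head → F w = CoprodI.of d * F q.tail → w = CoprodI.Word.rcons q := by
    intro w j q d hd h
    rw [Fpair j w] at h
    rw [← L1 j _ q _ d (hrV _ _) hd h, pair]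
  -- the branch sets
  let Br : CoprodI.Word A → Set (CoprodI B) := fun w =>
    {x | x = F w ∨ ∃ (i : ι) (p : CoprodI.Word.Pair A i), CoprodI.Word.rcons p = w ∧
      ∃ b ∈ V i p.head, x = CoprodI.of b * F p.tail}
  have cBr : ∀ w, Conn (cayL (US T)) (Br w) := by
    intro w
    refine conn_star (r := F w) (Or.inl rfl) ?_
    rintro y (rfl | ⟨i, p, rfl, b, hb, rfl⟩)
    · exact ⟨{F w}, fun z hz => Or.inl hz, conn_singleton _ _, rfl, rfl⟩
    · refine ⟨(fun b => CoprodI.of b * F p.tail) '' V i p.head, ?_, ?_, ?_, ⟨b, hb, rfl⟩⟩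
      · rintro _ ⟨c, hc, rfl⟩
        exact Or.inr ⟨i, p, rfl, c, hc, rfl⟩
      · refine Conn.image ((hV i).1 p.head) _ ?_
        intro a _ c _ hac
        exact Or.inr (cayL_adj_right hac _)
      · exact ⟨r i p.head, hrV _ _, (FF_rcons r hr hr1 p).symm⟩
  have dBr : ∀ w v z, z ∈ Br w → z ∈ Br v → w = v := by
    intro w v z hx hy
    rcases hx with hx | ⟨i, p, hp, b, hb, hx⟩
    · rcases hy with hy | ⟨j, q, hq, d, hd, hy⟩
      · exact fw_inj r hr hrinj (prod_inj (hx.symm.trans hy))
      · rw [← hq]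
        exact L2 w j q d hd (hx.symm.trans hy)
    · rcases hy with hy | ⟨j, q, hq, d, hd, hy⟩
      · rw [← hp]
        exact (L2 v i p b hb (hy.symm.trans hx)).symm
      · by_cases hij : i = j
        · subst hij
          rw [← hp, ← hq, L1 i p q b d hb hd (hx.symm.trans hy)]
        · rcases diff_index hij (by rw [fw_fstIdx]; exact p.fstIdx_ne)
            (by rw [fw_fstIdx]; exact q.fstIdx_ne) (hx.symm.trans hy) with e | e
          · have e2 : p.head = 1 := dis i _ _ b hb (by rw [e]; exact h1 i)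
            have e3 : w = p.tail := by rw [← hp, CoprodI.Word.rcons, dif_pos e2]
            rw [← hq]
            refine L2 w j q d hd ?_
            rw [← hy, hx, e, map_one, one_mul, e3]
          · have e2 : q.head = 1 := dis j _ _ d hd (by rw [e]; exact h1 j)
            have e3 : v = q.tail := by rw [← hq, CoprodI.Word.rcons, dif_pos e2]
            rw [← hp]
            refine (L2 v i p b hb ?_).symm
            rw [← hx, hy, e, map_one, one_mul, e3]
  refine ⟨fun x => Br (CoprodI.Word.equiv x), fun x => cBr _, ?_, ?_⟩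
  · intro x y z hx hy
    exact CoprodI.Word.equiv.injective (dBr _ _ z hx hy)
  · have key : ∀ x y : CoprodI A, y * x⁻¹ ∈ US S →
        ∃ a ∈ Br (CoprodI.Word.equiv x), ∃ c ∈ Br (CoprodI.Word.equiv y),
          (cayL (US T)).Adj a c := by
      rintro x y ⟨i, s, hs, h⟩
      have hy : y = CoprodI.of s * x := mul_inv_eq_iff_eq_mul.1 h
      have e1 : CoprodI.Word.equiv y = CoprodI.of s • CoprodI.Word.equiv x := by
        rw [hy]
        exact mul_smul (CoprodI.of s) x (CoprodI.Word.empty : CoprodI.Word A)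
      have e2 := CoprodI.Word.equivPair_smul_same s (CoprodI.Word.equiv x)
      rw [← e1] at e2
      have hadj : (cayL (S i)).Adj (CoprodI.Word.equivPair i (CoprodI.Word.equiv x)).head
          (s * (CoprodI.Word.equivPair i (CoprodI.Word.equiv x)).head) := by
        rw [cayL, SimpleGraph.fromRel_adj]
        refine ⟨?_, Or.inl ?_⟩
        · intro h'
          have : s = 1 := by
            have := h'.symm
            rwa [mul_eq_right] at this
          exact (hS i).2.2 (this ▸ hs)
        · rwa [mul_inv_cancel_right]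
      obtain ⟨b, hb, d, hd, hbd⟩ := (hV i).2.2 _ _ hadj
      refine ⟨_, Or.inr ⟨i, _, pair i _, b, hb, rfl⟩, _, Or.inr ⟨i, _, pair i _, d, ?_, rfl⟩, ?_⟩
      · rw [e2]
        exact hd
      · rw [e2]
        exact cayL_adj_right hbd _
    intro x y hxy
    rw [cayL, SimpleGraph.fromRel_adj] at hxy
    rcases hxy.2 with h | h
    · exact key x y h
    · obtain ⟨a, ha, c, hc, hac⟩ := key y x h
      exact ⟨c, hc, a, ha, hac.symm⟩

end Pool.Agent.Helper15.FP
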